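import Pool.Agent.Helper50.HY.Stmts

/-!
# Row TRO: trial orbital (smooth, compactly supported, radial) with energy close to `-1/4`
-/

set_option autoImplicit false

namespace Pool.Agent.Helper24.HY

open MeasureTheory Filter Topology Set Pool.Agent.Helper95 Pool.Agent.Helper95.PW Pool.Agent.Helper95.LN
open Pool.Agent.Helper50.HY

/-- regularized square root -/
noncomputable def G (s t : ℝ) : ℝ := √(√(t ^ 2 + s ^ 2))

noncomputable def G' (s t : ℝ) : ℝ := (2 * t / (2 * √(t ^ 2 + s ^ 2))) / (2 * √(√(t ^ 2 + s ^ 2)))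

noncomputable def Q (s t : ℝ) : ℝ := Real.exp (-(G s t) / 2) * Real.smoothTransition (2 - t * s ^ 2)

noncomputable def Q' (s t : ℝ) : ℝ :=
  Real.exp (-(G s t) / 2) * (-(G' s t) / 2) * Real.smoothTransition (2 - t * s ^ 2) +
    Real.exp (-(G s t) / 2) * (deriv Real.smoothTransition (2 - t * s ^ 2) * (-(s ^ 2)))

lemma hasDerivAt_G {s : ℝ} (hs : 0 < s) (t : ℝ) : HasDerivAt (G s) (G' s t) t := by
  have h0 : 0 < t ^ 2 + s ^ 2 := by positivity
  have h1 : HasDerivAt (fun t : ℝ => t ^ 2 + s ^ 2) (2 * t) t := by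
    simpa using (hasDerivAt_pow 2 t).add_const (s ^ 2)
  have h2 := (h1.sqrt h0.ne').sqrt (Real.sqrt_pos.2 h0).ne'
  exact h2

lemma smooth_G {s : ℝ} (hs : 0 < s) : ContDiff ℝ (⊤ : ℕ∞) (G s) := by
  have h1 : ContDiff ℝ (⊤ : ℕ∞) (fun t : ℝ => t ^ 2 + s ^ 2) := by fun_prop
  have h2 : ContDiff ℝ (⊤ : ℕ∞) (fun t : ℝ => √(t ^ 2 + s ^ 2)) :=
    h1.sqrt (fun t => by positivity)
  exact h2.sqrt (fun t => (Real.sqrt_pos.2 (by positivity)).ne')

lemma smooth_Q {s : ℝ} (hs : 0 < s) : ContDiff ℝ (⊤ : ℕ∞) (Q s) := by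
  have h1 := smooth_G hs
  have h2 : ContDiff ℝ (⊤ : ℕ∞) (fun t : ℝ => Real.smoothTransition (2 - t * s ^ 2)) :=
    Real.smoothTransition.contDiff.comp (by fun_prop)
  exact (Real.contDiff_exp.comp ((h1.neg).div_const 2)).mul h2

lemma hasDerivAt_Q {s : ℝ} (hs : 0 < s) (t : ℝ) : HasDerivAt (Q s) (Q' s t) t := by
  have h1 : HasDerivAt (fun t => Real.exp (-(G s t) / 2)) (Real.exp (-(G s t) / 2) * (-(G' s t) / 2)) t :=
    (((hasDerivAt_G hs t).neg).div_const 2).exp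
  have hd : Differentiable ℝ Real.smoothTransition :=
    (Real.smoothTransition.contDiff (n := 1)).differentiable (by norm_num)
  have h3 : HasDerivAt (fun t : ℝ => 2 - t * s ^ 2) (-(s ^ 2)) t := by
    simpa using ((hasDerivAt_id t).mul_const (s ^ 2)).const_sub 2
  have h2 : HasDerivAt (fun t : ℝ => Real.smoothTransition (2 - t * s ^ 2))
      (deriv Real.smoothTransition (2 - t * s ^ 2) * (-(s ^ 2))) t :=
    HasDerivAt.comp (h₂ := Real.smoothTransition) t (hd (2 - t * s ^ 2)).hasDerivAt h3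
  exact h1.mul h2

lemma Q_zero {s : ℝ} (hs : 0 < s) (t : ℝ) (ht : (2 / s) ^ 2 ≤ t) : Q s t = 0 := by
  have h : 2 - t * s ^ 2 ≤ 0 := by
    rw [div_pow] at ht
    have h2 : 0 < s ^ 2 := by positivity
    rw [div_le_iff₀ h2] at ht
    linarith
  simp [Q, Real.smoothTransition.zero_of_nonpos h]

/-- bound for the derivative of the transition function -/
lemma st_bdd : ∃ C : ℝ, 0 ≤ C ∧ ∀ x, |deriv Real.smoothTransition x| ≤ C := by
  have hc : Continuous (deriv Real.smoothTransition) :=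
    (Real.smoothTransition.contDiff (n := 1)).continuous_deriv (by norm_num)
  obtain ⟨C, hC⟩ := (isCompact_Icc (a := (0 : ℝ)) (b := 1)).exists_bound_of_continuousOn hc.continuousOn
  refine ⟨max C 0, le_max_right _ _, fun x => ?_⟩
  by_cases h0 : x < 0
  · have : deriv Real.smoothTransition x = 0 := by
      have h : Real.smoothTransition =ᶠ[𝓝 x] fun _ => 0 := by
        filter_upwards [Iio_mem_nhds h0] with y hy
        exact Real.smoothTransition.zero_of_nonpos (le_of_lt hy)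
      rw [h.deriv_eq]; simp
    rw [this]; simp
  by_cases h1 : 1 < x
  · have : deriv Real.smoothTransition x = 0 := by
      have h : Real.smoothTransition =ᶠ[𝓝 x] fun _ => 1 := by
        filter_upwards [Ioi_mem_nhds h1] with y hy
        exact Real.smoothTransition.one_of_one_le (le_of_lt hy)
      rw [h.deriv_eq]; simp
    rw [this]; simp
  · exact (hC x ⟨not_lt.1 h0, not_lt.1 h1⟩).trans (le_max_left _ _)

lemma G_ge {s r : ℝ} (_hr : 0 < r) : r ≤ G s (r ^ 2) := by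
  refine Real.le_sqrt_of_sq_le (Real.le_sqrt_of_sq_le ?_)
  nlinarith [sq_nonneg s]

lemma G'_bd {s r : ℝ} (hr : 0 < r) : 0 ≤ G' s (r ^ 2) ∧ G' s (r ^ 2) * (2 * r) ≤ 1 := by
  have h0 : 0 < (r ^ 2) ^ 2 + s ^ 2 := by positivity
  have h1 : 0 < √((r ^ 2) ^ 2 + s ^ 2) := Real.sqrt_pos.2 h0
  have h2 : 0 < √√((r ^ 2) ^ 2 + s ^ 2) := Real.sqrt_pos.2 h1
  have h3 : r ≤ √√((r ^ 2) ^ 2 + s ^ 2) := G_ge hr
  have h4 : r ^ 2 ≤ √((r ^ 2) ^ 2 + s ^ 2) :=
    Real.le_sqrt_of_sq_le (by nlinarith [sq_nonneg s])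
  refine ⟨by unfold G'; positivity, ?_⟩
  have e : G' s (r ^ 2) * (2 * r) =
      (r ^ 2 / √((r ^ 2) ^ 2 + s ^ 2)) * (r / √√((r ^ 2) ^ 2 + s ^ 2)) := by
    unfold G'
    field_simp
  rw [e]
  have a : r ^ 2 / √((r ^ 2) ^ 2 + s ^ 2) ≤ 1 := (div_le_one h1).2 h4
  have b : r / √√((r ^ 2) ^ 2 + s ^ 2) ≤ 1 := (div_le_one h2).2 h3
  exact mul_le_one₀ a (by positivity) b

lemma Q_bd {s r : ℝ} (hr : 0 < r) : |Q s (r ^ 2)| ≤ Real.exp (-r / 2) := by
  unfold Q
  rw [abs_mul, abs_of_pos (Real.exp_pos _), abs_of_nonneg (Real.smoothTransition.nonneg _)]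
  calc _ ≤ Real.exp (-r / 2) * 1 := by
        refine mul_le_mul ?_ (Real.smoothTransition.le_one _) (Real.smoothTransition.nonneg _)
          (Real.exp_pos _).le
        apply Real.exp_le_exp.2
        have := G_ge (s := s) hr
        linarith
    _ = _ := mul_one _

lemma Q'_bd {s r C : ℝ} (hs : 0 < s) (hs1 : s ≤ 1) (hr : 0 < r)
    (hC : ∀ x, |deriv Real.smoothTransition x| ≤ C) :
    |2 * r * Q' s (r ^ 2)| ≤ (1 / 2 + 2 * C * r) * Real.exp (-r / 2) := by
  have hG := G_ge (s := s) hr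
  have hG' := G'_bd (s := s) hr
  have he : Real.exp (-(G s (r ^ 2)) / 2) ≤ Real.exp (-r / 2) :=
    Real.exp_le_exp.2 (by linarith)
  have h1 : |2 * r * (Real.exp (-(G s (r ^ 2)) / 2) * (-(G' s (r ^ 2)) / 2) *
      Real.smoothTransition (2 - r ^ 2 * s ^ 2))| ≤ 1 / 2 * Real.exp (-r / 2) := by
    have e : 2 * r * (Real.exp (-(G s (r ^ 2)) / 2) * (-(G' s (r ^ 2)) / 2) *
      Real.smoothTransition (2 - r ^ 2 * s ^ 2)) =
      -((1 / 2 * Real.exp (-(G s (r ^ 2)) / 2)) * ((G' s (r ^ 2) * (2 * r)) *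
      Real.smoothTransition (2 - r ^ 2 * s ^ 2))) := by ring
    have hn1 : 0 ≤ (G' s (r ^ 2) * (2 * r)) * Real.smoothTransition (2 - r ^ 2 * s ^ 2) :=
      mul_nonneg (mul_nonneg hG'.1 (by positivity)) (Real.smoothTransition.nonneg _)
    rw [e, abs_neg, abs_of_nonneg (mul_nonneg (by positivity) hn1)]
    calc _ ≤ (1 / 2 * Real.exp (-(G s (r ^ 2)) / 2)) * 1 := by
          refine mul_le_mul_of_nonneg_left ?_ (by positivity)
          exact mul_le_one₀ hG'.2 (Real.smoothTransition.nonneg _) (Real.smoothTransition.le_one _)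
      _ ≤ _ := by linarith
  have h2 : |2 * r * (Real.exp (-(G s (r ^ 2)) / 2) *
      (deriv Real.smoothTransition (2 - r ^ 2 * s ^ 2) * (-(s ^ 2))))| ≤
      2 * C * r * Real.exp (-r / 2) := by
    have e : 2 * r * (Real.exp (-(G s (r ^ 2)) / 2) *
      (deriv Real.smoothTransition (2 - r ^ 2 * s ^ 2) * (-(s ^ 2)))) =
      -((2 * r * Real.exp (-(G s (r ^ 2)) / 2)) *
      (deriv Real.smoothTransition (2 - r ^ 2 * s ^ 2) * s ^ 2)) := by ring
    have hb : |deriv Real.smoothTransition (2 - r ^ 2 * s ^ 2) * s ^ 2| ≤ C := by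
      rw [abs_mul, abs_of_nonneg (sq_nonneg s)]
      have hs2 : s ^ 2 ≤ 1 := by nlinarith
      have := hC (2 - r ^ 2 * s ^ 2)
      have h0 := abs_nonneg (deriv Real.smoothTransition (2 - r ^ 2 * s ^ 2))
      nlinarith [sq_nonneg s]
    rw [e, abs_neg, abs_mul, abs_of_nonneg (by positivity : 0 ≤ 2 * r * Real.exp (-(G s (r ^ 2)) / 2))]
    have hC0 : 0 ≤ C := (abs_nonneg _).trans hb
    calc _ ≤ (2 * r * Real.exp (-r / 2)) * C := by
          refine mul_le_mul ?_ hb (abs_nonneg _) (by positivity)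
          exact mul_le_mul_of_nonneg_left he (by positivity)
      _ = _ := by ring
  have e : 2 * r * Q' s (r ^ 2) = 2 * r * (Real.exp (-(G s (r ^ 2)) / 2) * (-(G' s (r ^ 2)) / 2) *
      Real.smoothTransition (2 - r ^ 2 * s ^ 2)) + 2 * r * (Real.exp (-(G s (r ^ 2)) / 2) *
      (deriv Real.smoothTransition (2 - r ^ 2 * s ^ 2) * (-(s ^ 2)))) := by
    unfold Q'; ring
  rw [e]
  calc _ ≤ _ := abs_add_le _ _
    _ ≤ _ := add_le_add h1 h2
    _ = _ := by ring

/-! ### limits -/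

noncomputable def sn (n : ℕ) : ℝ := 1 / ((n : ℝ) + 1)

lemma sn_pos (n : ℕ) : 0 < sn n := by unfold sn; positivity

lemma sn_le (n : ℕ) : sn n ≤ 1 := by
  unfold sn
  rw [div_le_one (by positivity)]
  have : (0 : ℝ) ≤ n := Nat.cast_nonneg n
  linarith

lemma sn_lim : Tendsto sn atTop (𝓝 0) := tendsto_one_div_add_atTop_nhds_zero_nat

lemma G_lim {r : ℝ} (hr : 0 < r) : Tendsto (fun n => G (sn n) (r ^ 2)) atTop (𝓝 r) := by
  have h : Continuous (fun s : ℝ => G s (r ^ 2)) := by unfold G; fun_prop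
  have h2 := (h.tendsto 0).comp sn_lim
  have e : G 0 (r ^ 2) = r := by
    unfold G
    rw [show (r ^ 2) ^ 2 + (0 : ℝ) ^ 2 = (r ^ 2) ^ 2 by ring, Real.sqrt_sq (by positivity),
      Real.sqrt_sq hr.le]
  rw [e] at h2
  exact h2

lemma G'_lim {r : ℝ} (hr : 0 < r) : Tendsto (fun n => G' (sn n) (r ^ 2)) atTop (𝓝 (1 / (2 * r))) := by
  have h : ContinuousAt (fun s : ℝ => G' s (r ^ 2)) 0 := by
    unfold G'
    have h1 : √((r ^ 2) ^ 2 + (0 : ℝ) ^ 2) ≠ 0 := (Real.sqrt_pos.2 (by positivity)).ne'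
    have h2 : √√((r ^ 2) ^ 2 + (0 : ℝ) ^ 2) ≠ 0 :=
      (Real.sqrt_pos.2 (Real.sqrt_pos.2 (by positivity))).ne'
    refine ContinuousAt.div (ContinuousAt.div (by fun_prop) (by fun_prop) ?_) (by fun_prop) ?_
    · exact mul_ne_zero two_ne_zero h1
    · exact mul_ne_zero two_ne_zero h2
  have h2 := h.tendsto.comp sn_lim
  have e : G' 0 (r ^ 2) = 1 / (2 * r) := by
    unfold G'
    rw [show (r ^ 2) ^ 2 + (0 : ℝ) ^ 2 = (r ^ 2) ^ 2 by ring, Real.sqrt_sq (by positivity),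
      Real.sqrt_sq hr.le]
    field_simp
  rw [e] at h2
  exact h2

lemma arg_lim (r : ℝ) : Tendsto (fun n => 2 - r ^ 2 * sn n ^ 2) atTop (𝓝 2) := by
  have h : Continuous (fun s : ℝ => 2 - r ^ 2 * s ^ 2) := by fun_prop
  have h2 := (h.tendsto 0).comp sn_lim
  have e : 2 - r ^ 2 * (0 : ℝ) ^ 2 = 2 := by ring
  rw [e] at h2
  exact h2

lemma Q_lim {r : ℝ} (hr : 0 < r) :
    Tendsto (fun n => Q (sn n) (r ^ 2)) atTop (𝓝 (Real.exp (-r / 2))) := by
  have h1 : Tendsto (fun n => Real.exp (-(G (sn n) (r ^ 2)) / 2)) atTop (𝓝 (Real.exp (-r / 2))) :=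
    (Real.continuous_exp.tendsto _).comp (((G_lim hr).neg).div_const 2)
  have h2 : Tendsto (fun n => Real.smoothTransition (2 - r ^ 2 * sn n ^ 2)) atTop (𝓝 1) := by
    have h := (Real.smoothTransition.continuous.tendsto 2).comp (arg_lim r)
    rw [Real.smoothTransition.one_of_one_le (by norm_num)] at h
    exact h
  simpa [Q] using h1.mul h2

lemma Q'_lim {r : ℝ} (hr : 0 < r) :
    Tendsto (fun n => 2 * r * Q' (sn n) (r ^ 2)) atTop (𝓝 (-(1 / 2) * Real.exp (-r / 2))) := by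
  have h1 : Tendsto (fun n => Real.exp (-(G (sn n) (r ^ 2)) / 2)) atTop (𝓝 (Real.exp (-r / 2))) :=
    (Real.continuous_exp.tendsto _).comp (((G_lim hr).neg).div_const 2)
  have h2 : Tendsto (fun n => Real.smoothTransition (2 - r ^ 2 * sn n ^ 2)) atTop (𝓝 1) := by
    have h := (Real.smoothTransition.continuous.tendsto 2).comp (arg_lim r)
    rw [Real.smoothTransition.one_of_one_le (by norm_num)] at h
    exact h
  have hc : Continuous (deriv Real.smoothTransition) :=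
    (Real.smoothTransition.contDiff (n := 1)).continuous_deriv (by norm_num)
  have h3 : Tendsto (fun n => deriv Real.smoothTransition (2 - r ^ 2 * sn n ^ 2) * (-(sn n ^ 2)))
      atTop (𝓝 0) := by
    have h := (hc.tendsto 2).comp (arg_lim r)
    have h' : Tendsto (fun n => -(sn n ^ 2)) atTop (𝓝 0) := by
      simpa using (sn_lim.pow 2).neg
    simpa using h.mul h'
  have h4 := ((h1.mul (((G'_lim hr).neg).div_const 2)).mul h2).add (h1.mul h3)
  have h5 := h4.const_mul (2 * r)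
  have e : 2 * r * (Real.exp (-r / 2) * (-(1 / (2 * r)) / 2) * 1 + Real.exp (-r / 2) * 0) =
      -(1 / 2) * Real.exp (-r / 2) := by field_simp; ring
  rw [e] at h5
  exact h5

/-! ### one-dimensional integrals -/

lemma int_pow (k : ℕ) : IntegrableOn (fun r : ℝ => r ^ k * Real.exp (-r)) (Ioi 0) := by
  have h := Real.GammaIntegral_convergent (s := k + 1) (by positivity)
  refine h.congr_fun (fun r _ => ?_) measurableSet_Ioi
  simp only [add_sub_cancel_right, Real.rpow_natCast]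
  ring

lemma val_pow (k : ℕ) : ∫ r in Ioi (0 : ℝ), r ^ k * Real.exp (-r) = (k.factorial : ℝ) := by
  rw [← Real.Gamma_nat_eq_factorial, Real.Gamma_eq_integral (by positivity)]
  refine setIntegral_congr_fun measurableSet_Ioi (fun r _ => ?_)
  simp only [add_sub_cancel_right, Real.rpow_natCast]
  ring

lemma exp_half (r : ℝ) : Real.exp (-r / 2) ^ 2 = Real.exp (-r) := by
  rw [← Real.exp_nat_mul]; congr 1; push_cast; ring

lemma cont_Q {s : ℝ} (hs : 0 < s) : Continuous (Q s) := (smooth_Q hs).continuous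

lemma cont_Q' {s : ℝ} (hs : 0 < s) : Continuous (Q' s) := by
  have e : Q' s = deriv (Q s) := by
    funext t; exact (hasDerivAt_Q hs t).deriv.symm
  rw [e]
  exact ((smooth_Q hs).of_le (by exact_mod_cast le_top) : ContDiff ℝ 1 (Q s)).continuous_deriv
    (by norm_num)

lemma lim_pow (k : ℕ) : Tendsto (fun n => ∫ r in Ioi (0 : ℝ), r ^ k * Q (sn n) (r ^ 2) ^ 2) atTop
    (𝓝 (k.factorial : ℝ)) := by
  rw [← val_pow k]
  refine tendsto_integral_of_dominated_convergence (fun r => r ^ k * Real.exp (-r)) ?_ (int_pow k)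
    ?_ ?_
  · intro n
    have := cont_Q (sn_pos n)
    exact (by fun_prop : Continuous fun r : ℝ => r ^ k * Q (sn n) (r ^ 2) ^ 2).aestronglyMeasurable
  · intro n
    refine (ae_restrict_iff' measurableSet_Ioi).2 (ae_of_all _ fun r hr => ?_)
    have hr : (0 : ℝ) < r := hr
    rw [Real.norm_eq_abs, abs_mul, abs_of_nonneg (by positivity : 0 ≤ r ^ k), abs_pow, ← exp_half]
    have := Q_bd (s := sn n) hr
    gcongr
  · refine (ae_restrict_iff' measurableSet_Ioi).2 (ae_of_all _ fun r hr => ?_)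
    have hr : (0 : ℝ) < r := hr
    have := ((Q_lim hr).pow 2).const_mul (r ^ k)
    rw [exp_half] at this
    exact this

lemma lim_der : Tendsto (fun n => ∫ r in Ioi (0 : ℝ), r ^ 2 * (2 * r * Q' (sn n) (r ^ 2)) ^ 2) atTop
    (𝓝 (1 / 2)) := by
  obtain ⟨C, hC0, hC⟩ := st_bdd
  have e : (1 / 2 : ℝ) = ∫ r in Ioi (0 : ℝ), r ^ 2 * (-(1 / 2) * Real.exp (-r / 2)) ^ 2 := by
    have : ∀ r : ℝ, r ^ 2 * (-(1 / 2) * Real.exp (-r / 2)) ^ 2 =
        (1 / 4) * (r ^ 2 * Real.exp (-r)) := fun r => by rw [mul_pow, exp_half]; ring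
    simp_rw [this]
    rw [integral_const_mul, val_pow 2]
    norm_num [Nat.factorial]
  rw [e]
  refine tendsto_integral_of_dominated_convergence
    (fun r => (1 / 4) * (r ^ 2 * Real.exp (-r)) + (2 * C) * (r ^ 3 * Real.exp (-r)) +
      (4 * C ^ 2) * (r ^ 4 * Real.exp (-r))) ?_ ?_ ?_ ?_
  · intro n
    have := cont_Q' (sn_pos n)
    exact (by fun_prop : Continuous fun r : ℝ => r ^ 2 * (2 * r * Q' (sn n) (r ^ 2)) ^ 2).aestronglyMeasurable
  · exact (((int_pow 2).const_mul _).add ((int_pow 3).const_mul _)).add ((int_pow 4).const_mul _)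
  · intro n
    refine (ae_restrict_iff' measurableSet_Ioi).2 (ae_of_all _ fun r hr => ?_)
    have hr : (0 : ℝ) < r := hr
    rw [Real.norm_eq_abs, abs_mul, abs_of_nonneg (by positivity : 0 ≤ r ^ 2), abs_pow]
    have h := Q'_bd (sn_pos n) (sn_le n) hr hC
    calc r ^ 2 * |2 * r * Q' (sn n) (r ^ 2)| ^ 2 ≤
        r ^ 2 * ((1 / 2 + 2 * C * r) * Real.exp (-r / 2)) ^ 2 := by gcongr
      _ = _ := by rw [mul_pow, exp_half]; ring
  · refine (ae_restrict_iff' measurableSet_Ioi).2 (ae_of_all _ fun r hr => ?_)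
    have hr : (0 : ℝ) < r := hr
    exact ((Q'_lim hr).pow 2).const_mul (r ^ 2)

/-! ### the radial formula -/

noncomputable def K3 : ℝ := 3 * (volume : Measure (EuclideanSpace ℝ (Fin 3))).real (Metric.ball 0 1)

lemma K3_pos : 0 < K3 := by
  unfold K3
  have : 0 < (volume : Measure (EuclideanSpace ℝ (Fin 3))).real (Metric.ball 0 1) := by
    rw [Measure.real, ENNReal.toReal_pos_iff]
    exact ⟨Metric.measure_ball_pos _ _ (by norm_num), measure_ball_lt_top⟩
  positivity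

lemma nr_eq (y : R3) : nr y = ‖(WithLp.toLp 2 y : EuclideanSpace ℝ (Fin 3))‖ := by
  rw [EuclideanSpace.norm_eq]
  simp [nr, Fin.sum_univ_three]

lemma radial (g : ℝ → ℝ) : ∫ y : R3, g (nr y) = K3 * ∫ r in Ioi (0 : ℝ), r ^ 2 * g r := by
  have h1 : ∫ y : R3, g (nr y) = ∫ x : EuclideanSpace ℝ (Fin 3), g ‖x‖ := by
    simp_rw [nr_eq]
    exact (EuclideanSpace.volume_preserving_symm_measurableEquiv_toLp (Fin 3)).symm.integral_comp'
      (g := fun x => g ‖x‖)
  rw [h1, integral_fun_norm_addHaar]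
  simp [K3, mul_assoc]

/-! ### the three-dimensional functions -/

lemma nr_sq (y : R3) : nr y ^ 2 = y 0 ^ 2 + y 1 ^ 2 + y 2 ^ 2 := by
  unfold nr
  exact Real.sq_sqrt (by positivity)

lemma nr_nn (y : R3) : 0 ≤ nr y := Real.sqrt_nonneg _

lemma sm_nr_sq : ContDiff ℝ (⊤ : ℕ∞) (fun y : R3 => nr y ^ 2) := by
  simp_rw [nr_sq]
  fun_prop

lemma hasFD_nr (y : R3) (i : Fin 3) :
    fderiv ℝ (fun y : R3 => nr y ^ 2) y (Pi.single i 1) = 2 * y i := by
  simp_rw [nr_sq]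
  have h (j : Fin 3) : HasFDerivAt (fun y : R3 => y j) (ContinuousLinearMap.proj (R := ℝ) (φ := fun _ : Fin 3 => ℝ) j) y :=
    hasFDerivAt_apply j y
  have h2 := (((h 0).pow 2).add ((h 1).pow 2)).add ((h 2).pow 2)
  have h3 : fderiv ℝ (fun y : R3 => y 0 ^ 2 + y 1 ^ 2 + y 2 ^ 2) y = _ := h2.fderiv
  rw [h3]
  fin_cases i <;> simp

lemma pd_rad {q q' : ℝ → ℝ} (hq : ∀ t, HasDerivAt q (q' t) t) (i : Fin 3) (y : R3) :
    pd i (fun y => q (nr y ^ 2)) y = q' (nr y ^ 2) * (2 * y i) := by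
  unfold pd
  have h1 : HasFDerivAt (fun y : R3 => nr y ^ 2) (fderiv ℝ (fun y : R3 => nr y ^ 2) y) y :=
    ((sm_nr_sq.differentiable (by simp)) y).hasFDerivAt
  have h2 := (hq (nr y ^ 2)).comp_hasFDerivAt y h1
  have h3 : fderiv ℝ (fun y : R3 => q (nr y ^ 2)) y = q' (nr y ^ 2) • fderiv ℝ (fun y : R3 => nr y ^ 2) y :=
    h2.fderiv
  rw [h3, smul_apply, hasFD_nr]
  rfl

lemma kin_rad {q q' : ℝ → ℝ} (hq : ∀ t, HasDerivAt q (q' t) t) (hqc : Continuous q')
    {R : ℝ} (hR : 0 < R) (hz : ∀ t, R ^ 2 < t → q' t = 0) :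
    ∑ i, ∫ y, pd i (fun y => q (nr y ^ 2)) y ^ 2 =
      K3 * ∫ r in Ioi (0 : ℝ), r ^ 2 * (2 * r * q' (r ^ 2)) ^ 2 := by
  have hc : Continuous (fun y : R3 => q' (nr y ^ 2)) := hqc.comp sm_nr_sq.continuous
  have hi : ∀ i : Fin 3, Integrable (fun y : R3 => pd i (fun y => q (nr y ^ 2)) y ^ 2) := by
    intro i
    simp_rw [pd_rad hq]
    have hcont : Continuous (fun y : R3 => (q' (nr y ^ 2) * (2 * y i)) ^ 2) :=
      (hc.mul (continuous_const.mul (continuous_apply i))).pow 2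
    apply hcont.integrable_of_hasCompactSupport
    refine HasCompactSupport.intro (isCompact_Icc : IsCompact (Icc (fun _ : Fin 3 => -R) (fun _ => R)))
      fun y hy => ?_
    have : R ^ 2 < nr y ^ 2 := by
      by_contra hh
      apply hy
      have hh := not_lt.1 hh
      rw [nr_sq] at hh
      have key : ∀ j : Fin 3, |y j| ≤ R := by
        intro j
        apply abs_le_of_sq_le_sq _ hR.le
        fin_cases j
        · show y 0 ^ 2 ≤ R ^ 2
          nlinarith [sq_nonneg (y 1), sq_nonneg (y 2)]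
        · show y 1 ^ 2 ≤ R ^ 2
          nlinarith [sq_nonneg (y 0), sq_nonneg (y 2)]
        · show y 2 ^ 2 ≤ R ^ 2
          nlinarith [sq_nonneg (y 1), sq_nonneg (y 0)]
      exact ⟨fun j => (abs_le.1 (key j)).1, fun j => (abs_le.1 (key j)).2⟩
    rw [hz _ this]; ring
  rw [← integral_finsetSum _ (fun i _ => hi i)]
  have e : ∀ y : R3, ∑ i, pd i (fun y => q (nr y ^ 2)) y ^ 2 =
      (fun r : ℝ => (2 * r * q' (r ^ 2)) ^ 2) (nr y) := by
    intro y
    simp_rw [pd_rad hq]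
    rw [Fin.sum_univ_three]
    have := nr_sq y
    show _ = (2 * nr y * q' (nr y ^ 2)) ^ 2
    have e2 : (2 * nr y * q' (nr y ^ 2)) ^ 2 = 4 * q' (nr y ^ 2) ^ 2 * nr y ^ 2 := by ring
    rw [e2, nr_sq]
    ring
  simp_rw [e]
  exact radial (fun r : ℝ => (2 * r * q' (r ^ 2)) ^ 2)

theorem TRO : ST_TRO := by
  intro δ hδ
  -- the three one-dimensional sequences
  set A : ℕ → ℝ := fun n => ∫ r in Ioi (0 : ℝ), r ^ 2 * (2 * r * Q' (sn n) (r ^ 2)) ^ 2 with hA
  set B : ℕ → ℝ := fun n => ∫ r in Ioi (0 : ℝ), r ^ 1 * Q (sn n) (r ^ 2) ^ 2 with hB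
  set N : ℕ → ℝ := fun n => ∫ r in Ioi (0 : ℝ), r ^ 2 * Q (sn n) (r ^ 2) ^ 2 with hN
  have lA : Tendsto A atTop (𝓝 (1 / 2)) := lim_der
  have lB : Tendsto B atTop (𝓝 1) := by
    have := lim_pow 1
    rwa [Nat.factorial_one, Nat.cast_one] at this
  have lN : Tendsto N atTop (𝓝 2) := by simpa [Nat.factorial] using lim_pow 2
  have lim : Tendsto (fun n => (A n - B n) / N n) atTop (𝓝 (-(1 / 4))) := by
    have := (lA.sub lB).div lN (by norm_num)
    have e : (1 / 2 - 1 : ℝ) / 2 = -(1 / 4) := by norm_num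
    rw [e] at this
    exact this
  have ev1 : ∀ᶠ n in atTop, (A n - B n) / N n < -(1 / 4) + δ :=
    lim.eventually (gt_mem_nhds (by linarith))
  have ev2 : ∀ᶠ n in atTop, 0 < N n := lN.eventually (lt_mem_nhds (by norm_num))
  obtain ⟨n, h1, h2⟩ := (ev1.and ev2).exists
  have hs := sn_pos n
  have hK := K3_pos
  set c : ℝ := 1 / √(K3 * N n) with hc
  have hKN : 0 < K3 * N n := mul_pos hK h2
  have hc2 : c ^ 2 = 1 / (K3 * N n) := by
    rw [hc, div_pow, one_pow, Real.sq_sqrt hKN.le]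
  have hRp : 0 < 2 / sn n := by positivity
  have hz' : ∀ t, (2 / sn n) ^ 2 < t → c * Q' (sn n) t = 0 := by
    intro t ht
    have h : Q (sn n) =ᶠ[𝓝 t] fun _ => 0 := by
      filter_upwards [Ioi_mem_nhds ht] with x hx
      exact Q_zero hs x (le_of_lt hx)
    have : Q' (sn n) t = 0 := by
      rw [← (hasDerivAt_Q hs t).deriv, h.deriv_eq]; simp
    rw [this, mul_zero]
  refine ⟨fun t => c * Q (sn n) t, 2 / sn n, hRp, contDiff_const.mul (smooth_Q hs),
    fun t ht => by simp [Q_zero hs t ht], ?_, ?_⟩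
  · have := radial (fun r => (c * Q (sn n) (r ^ 2)) ^ 2)
    have e : ∀ r : ℝ, r ^ 2 * (c * Q (sn n) (r ^ 2)) ^ 2 = c ^ 2 * (r ^ 2 * Q (sn n) (r ^ 2) ^ 2) :=
      fun r => by ring
    simp_rw [e, integral_const_mul] at this
    rw [show (∫ y : R3, (fun t => c * Q (sn n) t) (nr y ^ 2) ^ 2) =
      K3 * (c ^ 2 * N n) from this, hc2]
    field_simp
  · have k1 := kin_rad (q := fun t => c * Q (sn n) t) (q' := fun t => c * Q' (sn n) t)
      (fun t => (hasDerivAt_Q hs t).const_mul c) (continuous_const.mul (cont_Q' hs)) hRp hz'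
    have e1 : ∀ r : ℝ, r ^ 2 * (2 * r * (c * Q' (sn n) (r ^ 2))) ^ 2 =
      c ^ 2 * (r ^ 2 * (2 * r * Q' (sn n) (r ^ 2)) ^ 2) := fun r => by ring
    simp_rw [e1, integral_const_mul] at k1
    have k2 := radial (fun r => (c * Q (sn n) (r ^ 2)) ^ 2 / r)
    have e2 : ∫ r in Ioi (0 : ℝ), r ^ 2 * ((c * Q (sn n) (r ^ 2)) ^ 2 / r) = c ^ 2 * B n := by
      rw [hB, ← integral_const_mul]
      refine setIntegral_congr_fun measurableSet_Ioi (fun r hr => ?_)
      have : r ≠ 0 := (ne_of_gt hr)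
      field_simp
    rw [e2] at k2
    have k1' : (∑ i, ∫ y, pd i (fun y => (fun t => c * Q (sn n) t) (nr y ^ 2)) y ^ 2) =
      K3 * (c ^ 2 * A n) := k1
    have k2' : (∫ y : R3, (fun t => c * Q (sn n) t) (nr y ^ 2) ^ 2 / nr y) = K3 * (c ^ 2 * B n) := k2
    rw [k1', k2', hc2]
    have : K3 * (1 / (K3 * N n) * A n) - K3 * (1 / (K3 * N n) * B n) = (A n - B n) / N n := by
      field_simp
    rw [this]
    exact h1.le

end Pool.Agent.Helper24.HY
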